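import Pool.Agent.X203.Ribe
import Pool.Agent.X203.AutoCont

namespace Pool.Agent.Results.MP_8983f3_an.PreimageNotBanach

open Filter Topology MeasureTheory TopologicalSpace Pool.Agent.X203.Ribe

/-- The data of the problem.  The subspace `M ⊆ Y` with its Banach norm is given as (the range of)
an injective linear map `ι : M → Y` with `‖ι m‖ ≤ ‖m‖` from a Banach space `M`; `φ : X → Y` is a
Borel map which is linear modulo `M`. -/
structure Data (X Y M : Type*) [NormedAddCommGroup X] [NormedSpace ℝ X] [NormedAddCommGroup Y]
    [NormedSpace ℝ Y] [NormedAddCommGroup M] [NormedSpace ℝ M] where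
  /-- the inclusion of `M` in `Y` -/
  ι : M →ₗ[ℝ] Y
  injective : Function.Injective ι
  norm_le : ∀ m, ‖ι m‖ ≤ ‖m‖
  /-- the Borel map -/
  φ : X → Y
  borel : @Measurable X Y (borel X) (borel Y) φ
  linear_mod : ∀ (a b : ℝ) (x y : X), φ (a • x + b • y) - (a • φ x + b • φ y) ∈ Set.range ι

/-- The linear subspace `φ⁻¹(M)` of `X`. -/
def Data.V {X Y M : Type*} [NormedAddCommGroup X] [NormedSpace ℝ X] [NormedAddCommGroup Y]
    [NormedSpace ℝ Y] [NormedAddCommGroup M] [NormedSpace ℝ M] (D : Data X Y M) :
    Submodule ℝ X where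
  carrier := {x | D.φ x ∈ Set.range D.ι}
  zero_mem' := by
    obtain ⟨m, hm⟩ := D.linear_mod 0 0 0 0
    exact ⟨m, by rw [hm]; simp⟩
  add_mem' := by
    rintro x y ⟨m, hm⟩ ⟨m', hm'⟩
    obtain ⟨m'', hm''⟩ := D.linear_mod 1 1 x y
    refine ⟨m'' + (m + m'), ?_⟩
    rw [map_add, map_add, hm'', hm, hm']
    simp
  smul_mem' := by
    rintro c x ⟨m, hm⟩
    obtain ⟨m'', hm''⟩ := D.linear_mod c 0 x 0
    refine ⟨m'' + c • m, ?_⟩
    rw [map_add, map_smul, hm'', hm]
    simp

/-- `τ` is a Polish vector space topology on the subspace `V` of `X`, and its Borel sets are the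
traces on `V` of the Borel sets of `X`. -/
structure IsPolishVS {X : Type*} [NormedAddCommGroup X] [NormedSpace ℝ X] (V : Submodule ℝ X)
    (τ : TopologicalSpace V) : Prop where
  polish : @PolishSpace V τ
  add : @IsTopologicalAddGroup V τ _
  smul : @ContinuousSMul ℝ V _ _ τ
  borel : @_root_.borel V τ = MeasurableSpace.comap Subtype.val (_root_.borel X)

/-- `(V, τ)` is a Banach space: it is linearly homeomorphic to a Banach space (i.e. `τ` is induced
by a complete norm). -/
def IsBanach {X : Type} [NormedAddCommGroup X] [NormedSpace ℝ X] (V : Submodule ℝ X)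
    (τ : TopologicalSpace V) : Prop :=
  ∃ (W : Type) (_ : NormedAddCommGroup W) (_ : NormedSpace ℝ W) (_ : CompleteSpace W)
    (e : V ≃ₗ[ℝ] W), @Continuous V W τ _ e ∧ @Continuous W V _ τ e.symm

noncomputable def data : Data X L L where
  ι := iota.toLinearMap
  injective := iota_injective
  norm_le := iota_norm
  φ := G
  borel := by
    let : MeasurableSpace X := borel X
    have : BorelSpace X := ⟨rfl⟩
    let : MeasurableSpace L := borel L
    have : BorelSpace L := ⟨rfl⟩
    exact G_measurable
  linear_mod := fun a b x y => G_linear_mod a b x y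

theorem mem_V (x : X) : x ∈ data.V ↔ Summable (fun k => |F k x|) := mem_range_iota_iff x

/-! ### Existence of the Polish topology -/

/-- the sequence `(F_k x)_k` as an element of `ℓ₁` -/
noncomputable def j1 (x : data.V) : L := ⟨fun k => F k x, mem_l1 ((mem_V _).1 x.2)⟩

theorem j1_apply (x : data.V) (k : ℕ) : j1 x k = F k x := rfl

noncomputable def j (x : data.V) : L × X := (j1 x, x)

theorem j_injective : Function.Injective j := fun _ _ h => Subtype.ext (Prod.ext_iff.1 h).2

/-- the cocycle -/
noncomputable def P (z : X × X) : L :=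
  ⟨fun k => F k (z.1 + z.2) - F k z.1 - F k z.2, mem_l1 (Summable.of_nonneg_of_le
    (fun _ => abs_nonneg _) (fun k => F_quasi k z.1 z.2)
    (((summable_nn z.1).add (summable_nn z.2)).mul_left 2))⟩

theorem P_apply (z : X × X) (k : ℕ) : P z k = F k (z.1 + z.2) - F k z.1 - F k z.2 := rfl

theorem nn_sub (k : ℕ) (x y : X) : |nn k x - nn k y| ≤ nn k (x - y) := by
  unfold nn
  rw [← Finset.sum_sub_distrib]
  refine (Finset.abs_sum_le_sum_abs _ _).trans (Finset.sum_le_sum fun i _ => ?_)
  exact abs_abs_sub_abs_le_abs_sub _ _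

theorem tsum_nn (x : X) : ∑' k, nn k x = ‖x‖ := by
  rw [norm_eq, (summable_abs x).tsum_sigma]
  simp only [tsum_fintype]
  rfl

theorem P_continuous : Continuous P := by
  rw [continuous_iff_continuousAt]
  intro z0
  rw [ContinuousAt, tendsto_iff_norm_sub_tendsto_zero]
  let A : ℕ → X × X → ℝ := fun k z => 2 * (nn k z.1 + nn k z.2)
  have hAs : ∀ z, Summable (fun k => A k z) := fun z =>
    ((summable_nn z.1).add (summable_nn z.2)).mul_left 2
  have hA0 : ∀ k z, 0 ≤ A k z := fun k z => by
    have := nn_nonneg k z.1
    have := nn_nonneg k z.2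
    simp only [A]
    positivity
  have hP : ∀ k z, |P z k| ≤ A k z := fun k z => F_quasi k z.1 z.2
  let m : X × X → ℕ → ℝ := fun z k => min |P z k - P z0 k| (2 * A k z0)
  have hm0 : ∀ z k, 0 ≤ m z k := fun z k => le_min (abs_nonneg _) (by have := hA0 k z0; positivity)
  have hms : ∀ z, Summable (m z) := fun z => Summable.of_nonneg_of_le (hm0 z)
    (fun k => min_le_right _ _) ((hAs z0).mul_left 2)
  have h1 : Tendsto (fun z => ∑' k, m z k) (𝓝 z0) (𝓝 (∑' _ : ℕ, (0 : ℝ))) := by
    apply tendsto_tsum_of_dominated_convergence (bound := fun k => 2 * A k z0)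
    · exact (hAs z0).mul_left 2
    · intro k
      have h2 : Continuous (fun z : X × X => P z k) := by
        simp_rw [P_apply]
        exact (((F_continuous k).comp (continuous_fst.add continuous_snd)).sub
          ((F_continuous k).comp continuous_fst)).sub ((F_continuous k).comp continuous_snd)
      have h3 : Continuous (fun z => m z k) :=
        ((h2.sub continuous_const).abs).min continuous_const
      have h4 := h3.tendsto z0
      have h5 : m z0 k = 0 := by
        simp only [m, sub_self, abs_zero]
        exact min_eq_left (by have := hA0 k z0; positivity)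
      rwa [h5] at h4
    · refine Eventually.of_forall fun z k => ?_
      rw [Real.norm_eq_abs, abs_of_nonneg (hm0 z k)]
      exact min_le_right _ _
  rw [tsum_zero] at h1
  have h2 : Tendsto (fun z : X × X => 2 * (‖z.1 - z0.1‖ + ‖z.2 - z0.2‖)) (𝓝 z0) (𝓝 0) := by
    have h3 : Continuous (fun z : X × X => 2 * (‖z.1 - z0.1‖ + ‖z.2 - z0.2‖)) := by fun_prop
    have h4 := h3.tendsto z0
    simpa using h4
  have h3 := h1.add h2
  rw [add_zero] at h3
  refine squeeze_zero (fun z => norm_nonneg _) (fun z => ?_) h3
  rw [norm_eq, ← tsum_nn, ← tsum_nn, ← (summable_nn _).tsum_add (summable_nn _), ← tsum_mul_left,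
    ← (hms z).tsum_add (((summable_nn _).add (summable_nn _)).mul_left 2)]
  refine (summable_abs _).tsum_le_tsum (fun k => ?_)
    ((hms z).add (((summable_nn _).add (summable_nn _)).mul_left 2))
  have h4 : |(P z - P z0) k| = |P z k - P z0 k| := rfl
  rw [h4]
  have h5 := hP k z
  have h6 := hP k z0
  have h7 : A k z ≤ A k z0 + 2 * (nn k (z.1 - z0.1) + nn k (z.2 - z0.2)) := by
    have h8 := (abs_le.1 (nn_sub k z.1 z0.1)).2
    have h9 := (abs_le.1 (nn_sub k z.2 z0.2)).2
    simp only [A]
    linarith
  have h8 : |P z k - P z0 k| ≤ 2 * A k z0 + 2 * (nn k (z.1 - z0.1) + nn k (z.2 - z0.2)) := by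
    have := abs_sub (P z k) (P z0 k)
    linarith
  have h9 : 0 ≤ 2 * (nn k (z.1 - z0.1) + nn k (z.2 - z0.2)) := by
    have := nn_nonneg k (z.1 - z0.1)
    have := nn_nonneg k (z.2 - z0.2)
    positivity
  rcases le_total |P z k - P z0 k| (2 * A k z0) with h | h
  · simp only [m]
    rw [min_eq_left h]
    linarith
  · simp only [m]
    rw [min_eq_right h]
    linarith

theorem j_range : Set.range j = {p : L × X | ∀ k, p.1 k = F k p.2} := by
  ext p
  constructor
  · rintro ⟨x, rfl⟩ k
    rfl
  · intro h
    have h1 : p.2 ∈ data.V := by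
      rw [mem_V]
      have h2 : ∀ k, F k p.2 = p.1 k := fun k => (h k).symm
      simp_rw [h2]
      exact summable_abs p.1
    refine ⟨⟨p.2, h1⟩, ?_⟩
    ext1
    · ext k
      exact (h k).symm
    · rfl

theorem exists_topology : ∃ τ, IsPolishVS data.V τ := by
  have hX : SeparableSpace X := Pool.Agent.X203.separable_lp_one _
  have hL : SeparableSpace L := Pool.Agent.X203.separable_lp_one _
  have : SecondCountableTopology X := UniformSpace.secondCountable_of_separable X
  have : SecondCountableTopology L := UniformSpace.secondCountable_of_separable L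
  let τ : TopologicalSpace data.V := TopologicalSpace.induced j inferInstance
  refine ⟨τ, ?_⟩
  have hind : @IsInducing data.V (L × X) τ _ j := @IsInducing.mk _ _ τ _ j rfl
  have hcl : IsClosed (Set.range j) := by
    rw [j_range]
    have : {p : L × X | ∀ k, p.1 k = F k p.2} = ⋂ k, {p : L × X | p.1 k = F k p.2} := by
      ext p; simp
    rw [this]
    exact isClosed_iInter fun k => isClosed_eq ((continuous_coord k).comp continuous_fst)
      ((F_continuous k).comp continuous_snd)
  have hemb : @IsClosedEmbedding data.V (L × X) τ _ j :=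
    @IsClosedEmbedding.mk _ _ τ _ j (@IsEmbedding.mk _ _ τ _ j hind j_injective) hcl
  have hjc : @Continuous _ _ τ _ j := continuous_induced_dom
  have hj1 : @Continuous _ _ τ _ j1 := continuous_fst.comp hjc
  have hval : @Continuous _ _ τ _ (fun x : data.V => (x : X)) := continuous_snd.comp hjc
  have hpol : @PolishSpace data.V τ := hemb.polishSpace
  refine ⟨hpol, ?_, ?_, ?_⟩
  · refine @IsTopologicalAddGroup.mk _ τ _ ?_ ?_
    · refine @ContinuousAdd.mk _ τ _ ?_
      rw [continuous_induced_rng]
      have h1 : (j ∘ fun p : data.V × data.V => p.1 + p.2) = fun p =>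
          (j1 p.1 + j1 p.2 + P ((p.1 : X), (p.2 : X)), (p.1 : X) + (p.2 : X)) := by
        funext p
        ext1
        · ext k
          show F k ((p.1 : X) + (p.2 : X)) = F k p.1 + F k p.2 + (F k ((p.1 : X) + (p.2 : X)) -
            F k p.1 - F k p.2)
          ring
        · rfl
      rw [h1]
      exact ((((hj1.comp continuous_fst).add (hj1.comp continuous_snd)).add
        (P_continuous.comp ((hval.comp continuous_fst).prodMk (hval.comp continuous_snd))))).prodMk
        ((hval.comp continuous_fst).add (hval.comp continuous_snd))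
    · refine @ContinuousNeg.mk _ τ _ ?_
      rw [continuous_induced_rng]
      have h1 : (j ∘ fun p : data.V => -p) = fun p => (-j1 p, -(p : X)) := by
        funext p
        ext1
        · ext k
          show F k (-(p : X)) = -F k p
          have := F_smul k (-1) (p : X)
          rw [neg_one_smul] at this
          rw [this]
          ring
        · rfl
      rw [h1]
      exact hj1.neg.prodMk hval.neg
  · refine @ContinuousSMul.mk _ _ _ _ τ ?_
    rw [continuous_induced_rng]
    have h1 : (j ∘ fun p : ℝ × data.V => p.1 • p.2) = fun p =>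
        (p.1 • j1 p.2, p.1 • (p.2 : X)) := by
      funext p
      ext1
      · ext k
        exact F_smul k p.1 (p.2 : X)
      · rfl
    rw [h1]
    exact (continuous_fst.smul (hj1.comp continuous_snd)).prodMk
      (continuous_fst.smul (hval.comp continuous_snd))
  · let : MeasurableSpace X := borel X
    have : BorelSpace X := ⟨rfl⟩
    let : MeasurableSpace data.V := @_root_.borel _ τ
    have : @BorelSpace data.V τ _ := @BorelSpace.mk _ τ _ rfl
    have h1 : MeasurableEmbedding (fun x : data.V => (x : X)) :=
      @Continuous.measurableEmbedding data.V X _ _ _ _ _ τ hpol _ _ hval Subtype.val_injective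
    exact h1.comap_eq.symm

/-! ### It is never a Banach space -/

theorem not_banach (τ : TopologicalSpace data.V) (hτ : IsPolishVS data.V τ) :
    ¬ IsBanach data.V τ := by
  rintro ⟨W, i1, i2, i3, e, -, he⟩
  have hX : SeparableSpace X := Pool.Agent.X203.separable_lp_one _
  let : MeasurableSpace X := borel X
  have : BorelSpace X := ⟨rfl⟩
  let : MeasurableSpace W := borel W
  have : BorelSpace W := ⟨rfl⟩
  let κ : W →ₗ[ℝ] X := data.V.subtype.comp e.symm.toLinearMap
  have hκm : Measurable κ := by
    have h1 : @Measurable W data.V (borel W) (@borel _ τ) e.symm :=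
      @Continuous.measurable W data.V _ _ _ τ (@borel _ τ) (@BorelSpace.mk _ τ (@borel _ τ) rfl) _ he
    have h2 : @Measurable data.V X (@borel _ τ) (borel X) (fun x => (x : X)) := by
      rw [hτ.borel]
      exact comap_measurable _
    exact h2.comp h1
  have hκ := Pool.Agent.X203.continuous_of_borel_linear κ hκm
  have hval : ∀ w, κ w = ((e.symm w : data.V) : X) := fun w => rfl
  refine no_banach (⟨κ, hκ⟩ : W →L[ℝ] X) ?_ ?_ ?_
  · intro a b h
    exact e.symm.injective (Subtype.ext h)
  · intro x hx
    refine ⟨e ⟨x, (mem_V x).2 hx⟩, ?_⟩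
    show κ _ = x
    rw [hval, e.symm_apply_apply]
  · intro w
    exact (mem_V _).1 (e.symm w).2

/-- There are separable Banach spaces `X, Y`, a Banach space `M` embedded in `Y` with
`‖·‖_Y ≤ ‖·‖_M`, and a Borel map `φ : X → Y`, linear modulo `M`, such that the Polish vector space
`φ⁻¹(M)` is not a Banach space: a Polish vector space topology on `φ⁻¹(M)` whose Borel sets are the
traces of the Borel sets of `X` exists, and no such topology is induced by a complete norm. -/
theorem result : ∃ (X Y M : Type) (_ : NormedAddCommGroup X) (_ : NormedSpace ℝ X)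
    (_ : NormedAddCommGroup Y) (_ : NormedSpace ℝ Y) (_ : NormedAddCommGroup M)
    (_ : NormedSpace ℝ M) (D : Data X Y M),
    CompleteSpace X ∧ CompleteSpace Y ∧ CompleteSpace M ∧
    SeparableSpace X ∧ SeparableSpace Y ∧ SeparableSpace M ∧
    (∃ τ, IsPolishVS D.V τ) ∧ ∀ τ, IsPolishVS D.V τ → ¬ IsBanach D.V τ := by
  have hX : SeparableSpace X := Pool.Agent.X203.separable_lp_one _
  have hL : SeparableSpace L := Pool.Agent.X203.separable_lp_one _
  exact ⟨X, L, L, inferInstance, inferInstance, inferInstance, inferInstance, inferInstance,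
    inferInstance, data, inferInstance, inferInstance, inferInstance, hX, hL, hL,
    exists_topology, not_banach⟩

end Pool.Agent.Results.MP_8983f3_an.PreimageNotBanach
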